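import Mathlib
import Pool.Agent.H.MP_d042fc_an.Stein

set_option autoImplicit false

namespace Pool.Agent.Results.MP_d042fc_an.Proof

noncomputable def weight (τ t : ℝ) (k : ℕ) (x : ℝ) : ℝ :=
  x ^ k * Real.exp (-x ^ 6 + τ * x ^ 4 + t * x ^ 2)

noncomputable def moment (τ t : ℝ) (k : ℕ) : ℝ := ∫ x : ℝ, weight τ t k x

def lhs (τ t a b c d e : ℝ) : ℝ :=
  6 * c * (a * b + b ^ 2 + 2 * b * c + b * d + c ^ 2 + 2 * c * d + d ^ 2 + d * e) -
    4 * τ * c * (b + c + d) - 2 * t * c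

def PosSol (τ t : ℝ) (b : ℤ → ℝ) : Prop :=
  b (-1) = 0 ∧ b 0 = 0 ∧ (∀ n, 1 ≤ n → 0 < b n) ∧
    ∀ n, 1 ≤ n → lhs τ t (b (n - 2)) (b (n - 1)) (b n) (b (n + 1)) (b (n + 2)) = n

theorem first (τ t : ℝ) (b : ℤ → ℝ) (hb : PosSol τ t b) :
    0 < moment τ t 0 ∧ 0 < moment τ t 2 ∧ b 1 = moment τ t 2 / moment τ t 0 ∧
      b 2 = moment τ t 4 / moment τ t 2 - moment τ t 2 / moment τ t 0 := by
  obtain ⟨hm, h0, hpos, hE⟩ := hb
  have h := Pool.Agent.H.MP_d042fc_an.main (fun k => b (k - 1)) τ t (by simpa using hm)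
    (by simpa using h0) (fun n => by
      rcases n with _ | _ | n
      · simp [hm]
      · simp [h0]
      · exact (hpos _ (by push_cast; omega)).le) (fun n => by
      have := hE (n + 1) (by omega)
      unfold lhs at this
      unfold Pool.Agent.H.MP_d042fc_an.be
      push_cast at this ⊢
      ring_nf at this ⊢
      linarith)
  have p0 : 0 < moment τ t 0 := by
    have := MeasureTheory.integral_exp_pos (μ := MeasureTheory.volume)
      (f := fun x : ℝ => -x ^ 6 + τ * x ^ 4 + t * x ^ 2)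
      (by simpa [Pool.Agent.H.MP_d042fc_an.om] using Pool.Agent.H.MP_d042fc_an.integ τ t 0)
    simpa [moment, weight] using this
  obtain ⟨h2, h4⟩ := h
  change b (2 - 1) * moment τ t 0 = moment τ t 2 at h2
  change b (2 - 1) * (b (2 - 1) + b (3 - 1)) * moment τ t 0 = moment τ t 4 at h4
  norm_num at h2 h4
  have p1 := hpos 1 le_rfl
  refine ⟨p0, by rw [← h2]; positivity, ?_, ?_⟩
  · rw [← h2]; field_simp
  · rw [← h2, ← h4]; field_simp; ring

theorem result (κ τ t : ℝ) (ht : t = -κ * τ ^ 2) (b : ℤ → ℝ) (hb : PosSol τ t b) :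
    (∀ j, MeasureTheory.Integrable (weight τ t (2 * j))) ∧
      0 < moment τ t 0 ∧ 0 < moment τ t 2 ∧ b 1 = moment τ t 2 / moment τ t 0 ∧
      b 2 = moment τ t 4 / moment τ t 2 - moment τ t 2 / moment τ t 0 ∧
      ∀ c : ℤ → ℝ, PosSol τ (-κ * τ ^ 2) c → ∀ n, -1 ≤ n → c n = b n := by
  rw [← ht]
  obtain ⟨p0, p2, b1, b2⟩ := first τ t b hb
  refine ⟨Pool.Agent.H.MP_d042fc_an.integ τ t, p0, p2, b1, b2, fun c hc => ?_⟩
  obtain ⟨-, -, c1, c2⟩ := first τ t c hc
  have key : ∀ n : ℤ, 1 ≤ n → c (n - 2) = b (n - 2) ∧ c (n - 1) = b (n - 1) ∧ c n = b n ∧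
      c (n + 1) = b (n + 1) := by
    intro n hn
    induction n, hn using Int.leInduction with
    | base =>
      refine ⟨by simpa using hc.1.trans hb.1.symm, by simpa using hc.2.1.trans hb.2.1.symm,
        c1.trans b1.symm, by simpa using c2.trans b2.symm⟩
    | succ n hn ih =>
      obtain ⟨e1, e2, e3, e4⟩ := ih
      have f1 := hb.2.2.2 n hn
      have f2 := hc.2.2.2 n hn
      have g1 := hb.2.2.1 n hn
      have g2 := hb.2.2.1 (n + 1) (by omega)
      rw [e1, e2, e3, e4] at f2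
      refine ⟨by rw [show n + 1 - 2 = n - 1 by ring, e2], by rw [add_sub_cancel_right, e3], e4, ?_⟩
      rw [show n + 1 + 1 = n + 2 by ring]
      unfold lhs at f1 f2
      have : 6 * b n * b (n + 1) * (c (n + 2) - b (n + 2)) = 0 := by linarith
      rcases mul_eq_zero.mp this with h | h
      · exact absurd h (by positivity)
      · linarith
  intro n hn
  simpa using (key (n + 2) (by omega)).1

end Pool.Agent.Results.MP_d042fc_an.Proof
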